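import Mathlib
import Pool.Agent.Q240.KS.Stm1

/-!
# Project KS (helper240): job SMO, smooth sums by Poisson's formula
-/

set_option autoImplicit false

namespace Pool.Agent.Q14.KS

open Finset Pool.Agent.H376R2.MR MeasureTheory
open Pool.Agent.Q240.KS

/-- the phase factor -/
noncomputable def EP (τ κ s : ℝ) : ℂ := Complex.exp (-((τ * s + κ * Real.exp s : ℝ) : ℂ) * Complex.I)

theorem EP_norm (τ κ s : ℝ) : ‖EP τ κ s‖ = 1 := by
  unfold EP
  have : -((τ * s + κ * Real.exp s : ℝ) : ℂ) * Complex.I = ((-(τ * s + κ * Real.exp s) : ℝ) : ℂ) * Complex.I := by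
    push_cast
    ring
  rw [this]
  exact Complex.norm_exp_ofReal_mul_I _

theorem EP_deriv (τ κ s : ℝ) :
    HasDerivAt (EP τ κ) (-((τ + κ * Real.exp s : ℝ) : ℂ) * Complex.I * EP τ κ s) s := by
  have h1 : HasDerivAt (fun s : ℝ => τ * s + κ * Real.exp s) (τ + κ * Real.exp s) s := by
    have h2 := (hasDerivAt_id s).const_mul τ
    have h3 := (Real.hasDerivAt_exp s).const_mul κ
    have h4 := h2.add h3
    simp only [id, mul_one] at h4
    exact h4
  have h5 : HasDerivAt (fun s : ℝ => -((τ * s + κ * Real.exp s : ℝ) : ℂ) * Complex.I)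
      (-((τ + κ * Real.exp s : ℝ) : ℂ) * Complex.I) s := (h1.ofReal_comp.neg).mul_const Complex.I
  have h6 := h5.cexp
  unfold EP
  rw [mul_comm] at h6
  exact h6

theorem EP_cont (τ κ : ℝ) : Continuous (EP τ κ) := by
  unfold EP
  fun_prop

/-- two integrations by parts -/
theorem ibp {P P1 P2 : ℝ → ℝ} (hP : ∀ s, HasDerivAt P (P1 s) s) (hP1 : ∀ s, HasDerivAt P1 (P2 s) s)
    (hP2 : Continuous P2) {τ κ a b M B : ℝ} (hab : a ≤ b) (hba : b - a ≤ 1) (hB : 0 < B) (hM : 0 ≤ M)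
    (h1 : ∀ s ∈ Set.Icc a b, |P s| ≤ M) (h2 : ∀ s ∈ Set.Icc a b, |P1 s| ≤ M) (h3 : ∀ s ∈ Set.Icc a b, |P2 s| ≤ M)
    (hψ : ∀ s ∈ Set.Icc a b, B ≤ |τ + κ * Real.exp s|)
    (hκ : ∀ s ∈ Set.Icc a b, |κ * Real.exp s| ≤ 2 * |τ + κ * Real.exp s|) :
    ‖(∫ s in a..b, (P s : ℂ) * EP τ κ s) - Complex.I * (((P b / (τ + κ * Real.exp b) : ℝ) : ℂ) * EP τ κ b -
      ((P a / (τ + κ * Real.exp a) : ℝ) : ℂ) * EP τ κ a)‖ ≤ 27 * M / B ^ 2 := by
  obtain ⟨ψ, hψd⟩ : ∃ ψ : ℝ → ℝ, ψ = fun s => τ + κ * Real.exp s := ⟨_, rfl⟩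
  obtain ⟨χ, hχd⟩ : ∃ χ : ℝ → ℝ, χ = fun s => κ * Real.exp s := ⟨_, rfl⟩
  have hψe : ∀ s, τ + κ * Real.exp s = ψ s := fun s => by rw [hψd]
  have hχe : ∀ s, κ * Real.exp s = χ s := fun s => by rw [hχd]
  have dχ : ∀ s, HasDerivAt χ (χ s) s := by
    intro s
    rw [hχd]
    exact (Real.hasDerivAt_exp s).const_mul κ
  have dψ : ∀ s, HasDerivAt ψ (χ s) s := by
    intro s
    rw [hψd, hχd]
    exact ((Real.hasDerivAt_exp s).const_mul κ).const_add τ
  simp only [hψe] at hψ hκ ⊢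
  simp only [hχe] at hκ
  have hψ0 : ∀ s ∈ Set.Icc a b, ψ s ≠ 0 := by
    intro s hs h0
    have := hψ s hs
    rw [h0, abs_zero] at this
    linarith
  obtain ⟨α₁, hα₁⟩ : ∃ α₁ : ℝ → ℝ, α₁ = fun s => P s / ψ s := ⟨_, rfl⟩
  obtain ⟨α₂, hα₂⟩ : ∃ α₂ : ℝ → ℝ, α₂ = fun s => P1 s / ψ s ^ 2 - P s * χ s / ψ s ^ 3 := ⟨_, rfl⟩
  obtain ⟨α₃, hα₃⟩ : ∃ α₃ : ℝ → ℝ, α₃ = fun s => P2 s / ψ s ^ 2 - 3 * P1 s * χ s / ψ s ^ 3 - P s * χ s / ψ s ^ 3 +
    3 * P s * χ s ^ 2 / ψ s ^ 4 := ⟨_, rfl⟩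
  have dα₁ : ∀ s ∈ Set.Icc a b, HasDerivAt α₁ (ψ s * α₂ s) s := by
    intro s hs
    have h0 := hψ0 s hs
    have h4 := (hP s).div (dψ s) h0
    rw [hα₁, hα₂]
    refine h4.congr_deriv ?_
    simp only
    field_simp
  have dα₂ : ∀ s ∈ Set.Icc a b, HasDerivAt α₂ (α₃ s) s := by
    intro s hs
    have h0 := hψ0 s hs
    have h4 := (hP1 s).div ((dψ s).pow 2) (pow_ne_zero 2 h0)
    have h5 := ((hP s).mul (dχ s)).div ((dψ s).pow 3) (pow_ne_zero 3 h0)
    rw [hα₂, hα₃]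
    refine (h4.sub h5).congr_deriv ?_
    simp only [Pi.mul_apply, Pi.pow_apply]
    push_cast
    field_simp
    ring
  obtain ⟨H, hH⟩ : ∃ H : ℝ → ℂ, H = fun s => (Complex.I * (α₁ s : ℂ) + (α₂ s : ℂ)) * EP τ κ s := ⟨_, rfl⟩
  have dH : ∀ s ∈ Set.uIcc a b, HasDerivAt H ((P s : ℂ) * EP τ κ s + (α₃ s : ℂ) * EP τ κ s) s := by
    intro s hs
    rw [Set.uIcc_of_le hab] at hs
    have h0 := hψ0 s hs
    have h4 := ((((dα₁ s hs).ofReal_comp).const_mul Complex.I).add (dα₂ s hs).ofReal_comp).mul (EP_deriv τ κ s)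
    rw [hH]
    refine h4.congr_deriv ?_
    simp only [Pi.add_apply]
    rw [hψe]
    have e1 : (P s : ℂ) = (α₁ s : ℂ) * (ψ s : ℂ) := by
      have : P s = α₁ s * ψ s := by
        rw [hα₁]
        field_simp
      rw [this]
      push_cast
      rfl
    rw [e1]
    have hI : Complex.I * Complex.I = -1 := Complex.I_mul_I
    push_cast
    linear_combination (-(α₁ s : ℂ) * (ψ s : ℂ) * EP τ κ s) * hI
  have hcE := EP_cont τ κ
  have hPc : Continuous P := continuous_iff_continuousAt.2 fun s => (hP s).continuousAt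
  have hP1c : Continuous P1 := continuous_iff_continuousAt.2 fun s => (hP1 s).continuousAt
  have hψc : Continuous ψ := continuous_iff_continuousAt.2 fun s => (dψ s).continuousAt
  have hχc : Continuous χ := continuous_iff_continuousAt.2 fun s => (dχ s).continuousAt
  have hα₃c : ContinuousOn α₃ (Set.uIcc a b) := by
    rw [Set.uIcc_of_le hab, hα₃]
    refine ContinuousOn.add (ContinuousOn.sub (ContinuousOn.sub ?_ ?_) ?_) ?_
    · exact hP2.continuousOn.div (hψc.pow 2).continuousOn fun s hs => pow_ne_zero 2 (hψ0 s hs)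
    · exact ((continuous_const.mul hP1c).mul hχc).continuousOn.div (hψc.pow 3).continuousOn fun s hs => pow_ne_zero 3 (hψ0 s hs)
    · exact (hPc.mul hχc).continuousOn.div (hψc.pow 3).continuousOn fun s hs => pow_ne_zero 3 (hψ0 s hs)
    · exact ((continuous_const.mul hPc).mul (hχc.pow 2)).continuousOn.div (hψc.pow 4).continuousOn
        fun s hs => pow_ne_zero 4 (hψ0 s hs)
  have i1 : IntervalIntegrable (fun s => (P s : ℂ) * EP τ κ s) volume a b :=
    ((Complex.continuous_ofReal.comp hPc).mul hcE).intervalIntegrable a b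
  have i2 : IntervalIntegrable (fun s => (α₃ s : ℂ) * EP τ κ s) volume a b :=
    ((Complex.continuous_ofReal.comp_continuousOn hα₃c).mul hcE.continuousOn).intervalIntegrable
  have h4 := intervalIntegral.integral_eq_sub_of_hasDerivAt dH (i1.add i2)
  rw [intervalIntegral.integral_add i1 i2] at h4
  have h5 : (∫ s in a..b, (P s : ℂ) * EP τ κ s) - Complex.I * (((P b / ψ b : ℝ) : ℂ) * EP τ κ b -
      ((P a / ψ a : ℝ) : ℂ) * EP τ κ a) = (α₂ b : ℂ) * EP τ κ b - (α₂ a : ℂ) * EP τ κ a -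
      ∫ s in a..b, (α₃ s : ℂ) * EP τ κ s := by
    have e1 : (P b / ψ b : ℝ) = α₁ b := by rw [hα₁]
    have e2 : (P a / ψ a : ℝ) = α₁ a := by rw [hα₁]
    rw [e1, e2]
    rw [hH] at h4
    linear_combination h4
  rw [h5]
  have ha : a ∈ Set.Icc a b := Set.left_mem_Icc.2 hab
  have hb : b ∈ Set.Icc a b := Set.right_mem_Icc.2 hab
  have hψsq : ∀ s ∈ Set.Icc a b, B ^ 2 ≤ ψ s ^ 2 := by
    intro s hs
    rw [← sq_abs (ψ s)]
    exact pow_le_pow_left₀ hB.le (hψ s hs) 2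
  -- quotients
  have hq : ∀ s ∈ Set.Icc a b, |χ s / ψ s| ≤ 2 := by
    intro s hs
    rw [abs_div, div_le_iff₀ (lt_of_lt_of_le hB (hψ s hs))]
    exact hκ s hs
  have hPq : ∀ (x : ℝ), |x| ≤ M → ∀ s ∈ Set.Icc a b, |x / ψ s ^ 2| ≤ M / B ^ 2 := by
    intro x hx s hs
    rw [abs_div, abs_of_nonneg (sq_nonneg (ψ s))]
    exact div_le_div₀ hM hx (by positivity) (hψsq s hs)
  have b2 : ∀ s ∈ Set.Icc a b, |α₂ s| ≤ 3 * (M / B ^ 2) := by
    intro s hs
    have h0 := hψ0 s hs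
    have e : α₂ s = P1 s / ψ s ^ 2 - P s / ψ s ^ 2 * (χ s / ψ s) := by
      rw [hα₂]
      field_simp
    rw [e]
    refine (abs_sub _ _).trans ?_
    rw [abs_mul]
    have j1 := hPq _ (h2 s hs) s hs
    have j2 := mul_le_mul (hPq _ (h1 s hs) s hs) (hq s hs) (abs_nonneg _) (by positivity)
    linarith
  have b3 : ∀ s ∈ Set.Icc a b, |α₃ s| ≤ 21 * (M / B ^ 2) := by
    intro s hs
    have h0 := hψ0 s hs
    have e : α₃ s = P2 s / ψ s ^ 2 - 3 * (P1 s / ψ s ^ 2 * (χ s / ψ s)) - P s / ψ s ^ 2 * (χ s / ψ s) +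
        3 * (P s / ψ s ^ 2 * (χ s / ψ s) ^ 2) := by
      rw [hα₃]
      field_simp
    rw [e]
    have hMB : 0 ≤ M / B ^ 2 := by positivity
    have j1 := hPq _ (h3 s hs) s hs
    have j2 := mul_le_mul (hPq _ (h2 s hs) s hs) (hq s hs) (abs_nonneg _) hMB
    have j3 := mul_le_mul (hPq _ (h1 s hs) s hs) (hq s hs) (abs_nonneg _) hMB
    have j5 : |χ s / ψ s| ^ 2 ≤ 2 ^ 2 := pow_le_pow_left₀ (abs_nonneg _) (hq s hs) 2
    have j4 := mul_le_mul (hPq _ (h1 s hs) s hs) j5 (by positivity) hMB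
    rw [← abs_mul] at j2 j3
    rw [← abs_pow, ← abs_mul] at j4
    rw [abs_le] at j1 j2 j3 j4 ⊢
    constructor <;> linarith [j1.1, j1.2, j2.1, j2.2, j3.1, j3.2, j4.1, j4.2]
  have h6 : ‖∫ s in a..b, (α₃ s : ℂ) * EP τ κ s‖ ≤ 21 * (M / B ^ 2) * |b - a| := by
    refine intervalIntegral.norm_integral_le_of_norm_le_const fun s hs => ?_
    rw [Set.uIoc_of_le hab] at hs
    rw [norm_mul, EP_norm, mul_one, Complex.norm_real, Real.norm_eq_abs]
    exact b3 s ⟨hs.1.le, hs.2⟩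
  have h7 : ‖(α₂ b : ℂ) * EP τ κ b‖ ≤ 3 * (M / B ^ 2) := by
    rw [norm_mul, EP_norm, mul_one, Complex.norm_real, Real.norm_eq_abs]
    exact b2 b hb
  have h8 : ‖(α₂ a : ℂ) * EP τ κ a‖ ≤ 3 * (M / B ^ 2) := by
    rw [norm_mul, EP_norm, mul_one, Complex.norm_real, Real.norm_eq_abs]
    exact b2 a ha
  refine (norm_sub_le _ _).trans ((add_le_add (norm_sub_le _ _) h6).trans ?_)
  rw [abs_of_nonneg (by linarith)]
  have hMB : 0 ≤ M / B ^ 2 := by positivity
  have h9 : 21 * (M / B ^ 2) * (b - a) ≤ 21 * (M / B ^ 2) * 1 := by gcongr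
  have e : 27 * M / B ^ 2 = 27 * (M / B ^ 2) := by ring
  rw [e]
  linarith

/-- the amplitude -/
noncomputable def am (β p q s₀ s : ℝ) : ℝ := (p + q * (s - s₀)) * w (β * (s - s₀))

theorem am_cont (β p q s₀ : ℝ) : Continuous (am β p q s₀) := by
  unfold am w
  fun_prop

theorem am_zero {β p q s₀ s : ℝ} (hβ : 1 ≤ β) (h : 1 / β ≤ |s - s₀|) : am β p q s₀ s = 0 := by
  unfold am w
  rw [abs_mul, abs_of_pos (by linarith : 0 < β)]
  have h1 : 1 ≤ β * |s - s₀| := by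
    rw [div_le_iff₀ (by linarith)] at h
    linarith
  rw [max_eq_left (by linarith), mul_zero]

/-- the integral over the support -/
theorem int_am {β p q τ κ s₀ B : ℝ} (hβ : 1 ≤ β) (hβ2 : β ≤ 20) (hB : 0 < B)
    (hψ : ∀ s, s₀ - 1 ≤ s → B ≤ |τ + κ * Real.exp s|)
    (hκ : ∀ s, s₀ - 1 ≤ s → |κ * Real.exp s| ≤ 2 * |τ + κ * Real.exp s|) :
    ‖∫ s in (s₀ - 1 / β)..(s₀ + 1 / β), (am β p q s₀ s : ℂ) * EP τ κ s‖ ≤ 2700 * (|p| + |q|) / B ^ 2 := by
  have hβ0 : 0 < β := by linarith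
  have hβ1 : 1 / β ≤ 1 := by rw [div_le_one hβ0]; exact hβ
  have hβ3 : 0 < 1 / β := by positivity
  have hp := abs_nonneg p
  have hq := abs_nonneg q
  have hcE := EP_cont τ κ
  have hci : ∀ a b : ℝ, IntervalIntegrable (fun s => (am β p q s₀ s : ℂ) * EP τ κ s) volume a b := fun a b =>
    ((Complex.continuous_ofReal.comp (am_cont β p q s₀)).mul hcE).intervalIntegrable a b
  rw [← intervalIntegral.integral_add_adjacent_intervals (hci (s₀ - 1 / β) s₀) (hci s₀ (s₀ + 1 / β))]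
  -- both halves
  have key : ∀ (e a b : ℝ), |e| = 1 → a ≤ b → b - a ≤ 1 → s₀ - 1 ≤ a →
      (∀ s ∈ Set.Icc a b, w (β * (s - s₀)) = 1 + e * β * (s - s₀)) → (∀ s ∈ Set.Icc a b, |s - s₀| ≤ 1) →
      ‖(∫ s in a..b, (am β p q s₀ s : ℂ) * EP τ κ s) - Complex.I * (((am β p q s₀ b / (τ + κ * Real.exp b) : ℝ) : ℂ) * EP τ κ b -
      ((am β p q s₀ a / (τ + κ * Real.exp a) : ℝ) : ℂ) * EP τ κ a)‖ ≤ 27 * (50 * (|p| + |q|)) / B ^ 2 := by
    intro e a b he hab hba ha hw hs1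
    obtain ⟨P, hP⟩ : ∃ P : ℝ → ℝ, P = fun s => (p + q * (s - s₀)) * (1 + e * β * (s - s₀)) := ⟨_, rfl⟩
    obtain ⟨P1, hP1⟩ : ∃ P1 : ℝ → ℝ, P1 = fun s => q * (1 + e * β * (s - s₀)) + (p + q * (s - s₀)) * (e * β) := ⟨_, rfl⟩
    obtain ⟨P2, hP2⟩ : ∃ P2 : ℝ → ℝ, P2 = fun _ => 2 * (q * (e * β)) := ⟨_, rfl⟩
    have dl : ∀ c d s : ℝ, HasDerivAt (fun s : ℝ => c + d * (s - s₀)) d s := by
      intro c d s
      have h1 := (((hasDerivAt_id s).sub_const s₀).const_mul d).const_add c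
      simp only [id, mul_one] at h1
      exact h1
    have dP : ∀ s, HasDerivAt P (P1 s) s := by
      intro s
      have h1 := (dl p q s).mul (dl 1 (e * β) s)
      rw [hP, hP1]
      exact h1
    have dP1 : ∀ s, HasDerivAt P1 (P2 s) s := by
      intro s
      have h1 := ((dl 1 (e * β) s).const_mul q).add ((dl p q s).mul_const (e * β))
      rw [hP1, hP2]
      refine h1.congr_deriv ?_
      ring
    have hPe : ∀ s ∈ Set.Icc a b, am β p q s₀ s = P s := by
      intro s hs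
      unfold am
      rw [hw s hs, hP]
    have heβ : |e * β| ≤ 20 := by
      rw [abs_mul, he, one_mul, abs_of_pos hβ0]
      exact hβ2
    have bl : ∀ s ∈ Set.Icc a b, |p + q * (s - s₀)| ≤ |p| + |q| := by
      intro s hs
      refine (abs_add_le _ _).trans ?_
      rw [abs_mul]
      have := mul_le_of_le_one_right hq (hs1 s hs)
      linarith
    have bw : ∀ s ∈ Set.Icc a b, |1 + e * β * (s - s₀)| ≤ 1 := by
      intro s hs
      rw [← hw s hs]
      unfold w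
      rw [abs_of_nonneg (le_max_left _ _)]
      refine max_le zero_le_one ?_
      have := abs_nonneg (β * (s - s₀))
      linarith
    have h1 := ibp dP dP1 (by rw [hP2]; exact continuous_const) (τ := τ) (κ := κ) (M := 50 * (|p| + |q|)) hab hba hB
      (by positivity) ?_ ?_ ?_ (fun s hs => hψ s (ha.trans hs.1)) (fun s hs => hκ s (ha.trans hs.1))
    · rw [hPe a (Set.left_mem_Icc.2 hab), hPe b (Set.right_mem_Icc.2 hab)]
      have e1 : ∫ s in a..b, (am β p q s₀ s : ℂ) * EP τ κ s = ∫ s in a..b, (P s : ℂ) * EP τ κ s := by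
        refine intervalIntegral.integral_congr fun s hs => ?_
        rw [Set.uIcc_of_le hab] at hs
        rw [hPe s hs]
      rw [e1]
      exact h1
    · intro s hs
      rw [hP]
      simp only
      rw [abs_mul]
      have := mul_le_mul (bl s hs) (bw s hs) (abs_nonneg _) (by positivity)
      linarith
    · intro s hs
      rw [hP1]
      simp only
      refine (abs_add_le _ _).trans ?_
      rw [abs_mul, abs_mul]
      have j1 := mul_le_mul_of_nonneg_left (bw s hs) hq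
      have j2 := mul_le_mul (bl s hs) heβ (abs_nonneg _) (by positivity)
      linarith
    · intro s _
      rw [hP2]
      simp only
      rw [abs_mul, abs_mul, abs_of_pos (by norm_num : (0 : ℝ) < 2)]
      have j1 := mul_le_mul_of_nonneg_left heβ hq
      linarith
  have k1 := key 1 (s₀ - 1 / β) s₀ (by norm_num) (by linarith) (by linarith) (by linarith) (by
    intro s hs
    have h1 : β * (s - s₀) ≤ 0 := by nlinarith [hs.2]
    have h2 : -1 ≤ β * (s - s₀) := by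
      have h3 : -(1 / β) ≤ s - s₀ := by linarith [hs.1]
      have h4 := mul_le_mul_of_nonneg_left h3 hβ0.le
      have h5 : β * -(1 / β) = -1 := by field_simp
      linarith
    unfold w
    rw [abs_of_nonpos h1, max_eq_right (by linarith)]
    ring) (by
    intro s hs
    rw [abs_le]
    constructor <;> linarith [hs.1, hs.2])
  have k2 := key (-1) s₀ (s₀ + 1 / β) (by norm_num) (by linarith) (by linarith) (by linarith) (by
    intro s hs
    have h1 : 0 ≤ β * (s - s₀) := by nlinarith [hs.1]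
    have h2 : β * (s - s₀) ≤ 1 := by
      have h3 : s - s₀ ≤ 1 / β := by linarith [hs.2]
      have h4 := mul_le_mul_of_nonneg_left h3 hβ0.le
      have h5 : β * (1 / β) = 1 := by field_simp
      linarith
    unfold w
    rw [abs_of_nonneg h1, max_eq_right (by linarith)]
    ring) (by
    intro s hs
    rw [abs_le]
    constructor <;> linarith [hs.1, hs.2])
  have z1 : am β p q s₀ (s₀ - 1 / β) = 0 := am_zero hβ (by
    rw [show s₀ - 1 / β - s₀ = -(1 / β) by ring, abs_neg, abs_of_pos hβ3])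
  have z2 : am β p q s₀ (s₀ + 1 / β) = 0 := am_zero hβ (by
    rw [show s₀ + 1 / β - s₀ = 1 / β by ring, abs_of_pos hβ3])
  rw [z1, zero_div, Complex.ofReal_zero, zero_mul, sub_zero] at k1
  rw [z2, zero_div, Complex.ofReal_zero, zero_mul, zero_sub] at k2
  obtain ⟨X, hX⟩ : ∃ X : ℂ, X = ∫ s in (s₀ - 1 / β)..s₀, (am β p q s₀ s : ℂ) * EP τ κ s := ⟨_, rfl⟩
  obtain ⟨Y, hY⟩ : ∃ Y : ℂ, Y = ∫ s in s₀..(s₀ + 1 / β), (am β p q s₀ s : ℂ) * EP τ κ s := ⟨_, rfl⟩
  obtain ⟨Z, hZ⟩ : ∃ Z : ℂ, Z = ((am β p q s₀ s₀ / (τ + κ * Real.exp s₀) : ℝ) : ℂ) * EP τ κ s₀ := ⟨_, rfl⟩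
  rw [← hX, ← hZ] at k1
  rw [← hY, ← hZ] at k2
  rw [← hX, ← hY]
  have e : X + Y = (X - Complex.I * Z) + (Y - Complex.I * -Z) := by ring
  rw [e]
  refine (norm_add_le _ _).trans ((add_le_add k1 k2).trans (le_of_eq ?_))
  ring

open Classical in
/-- the summand as a function on the line -/
noncomputable def fs (β p q s₀ τ x : ℝ) : ℂ :=
  if x ≤ 0 then 0 else ((am β p q s₀ (Real.log x) / x : ℝ) : ℂ) * er (-τ) (Real.log x)

theorem fs_pos {β p q s₀ τ x : ℝ} (hx : 0 < x) :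
    fs β p q s₀ τ x = ((am β p q s₀ (Real.log x) / x : ℝ) : ℂ) * er (-τ) (Real.log x) := by
  unfold fs
  rw [if_neg (not_le.2 hx)]

theorem fs_neg {β p q s₀ τ x : ℝ} (hx : x ≤ 0) : fs β p q s₀ τ x = 0 := by
  unfold fs
  rw [if_pos hx]

theorem fs_small {β p q s₀ τ x : ℝ} (hβ : 1 ≤ β) (hx : x ≤ Real.exp (s₀ - 1 / β)) : fs β p q s₀ τ x = 0 := by
  by_cases h : x ≤ 0
  · exact fs_neg h
  · push Not at h
    rw [fs_pos h, am_zero hβ, zero_div, Complex.ofReal_zero, zero_mul]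
    have h1 : Real.log x ≤ s₀ - 1 / β := by
      rw [Real.log_le_iff_le_exp h]
      exact hx
    rw [abs_of_nonpos]
    · linarith
    · have : 0 < 1 / β := by positivity
      linarith

theorem fs_large {β p q s₀ τ x : ℝ} (hβ : 1 ≤ β) (hx : Real.exp (s₀ + 1 / β) ≤ x) : fs β p q s₀ τ x = 0 := by
  have h : 0 < x := lt_of_lt_of_le (Real.exp_pos _) hx
  rw [fs_pos h, am_zero hβ, zero_div, Complex.ofReal_zero, zero_mul]
  have h1 : s₀ + 1 / β ≤ Real.log x := by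
    rw [Real.le_log_iff_exp_le h]
    exact hx
  rw [abs_of_nonneg]
  · linarith
  · have : 0 < 1 / β := by positivity
    linarith

theorem fs_cont {β p q s₀ τ : ℝ} (hβ : 1 ≤ β) : Continuous (fs β p q s₀ τ) := by
  rw [continuous_iff_continuousAt]
  intro x
  by_cases hx : 0 < x
  · have h1 : ContinuousAt (fun x : ℝ => ((am β p q s₀ (Real.log x) / x : ℝ) : ℂ) * er (-τ) (Real.log x)) x := by
      have hl : ContinuousAt Real.log x := Real.continuousAt_log hx.ne'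
      refine ContinuousAt.mul ?_ ?_
      · refine Complex.continuous_ofReal.continuousAt.comp ?_
        exact (ContinuousAt.comp (am_cont β p q s₀).continuousAt hl).div continuousAt_id hx.ne'
      · have h2 : Continuous (er (-τ)) := by
          unfold er
          fun_prop
        exact ContinuousAt.comp (g := er (-τ)) h2.continuousAt hl
    refine h1.congr ?_
    filter_upwards [lt_mem_nhds hx] with y hy
    exact (fs_pos hy).symm
  · push Not at hx
    have h1 : ContinuousAt (fun _ : ℝ => (0 : ℂ)) x := continuousAt_const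
    refine h1.congr ?_
    have h2 : x < Real.exp (s₀ - 1 / β) := lt_of_le_of_lt hx (Real.exp_pos _)
    filter_upwards [gt_mem_nhds h2] with y hy
    exact (fs_small hβ hy.le).symm

open FourierTransform in
/-- the Fourier transform in logarithmic form -/
theorem fs_fourier {β p q s₀ τ : ℝ} (hβ : 1 ≤ β) (ξ : ℝ) :
    𝓕 (fs β p q s₀ τ) ξ = ∫ s in (s₀ - 1 / β)..(s₀ + 1 / β), (am β p q s₀ s : ℂ) * EP τ (2 * Real.pi * ξ) s := by
  rw [Real.fourier_real_eq_integral_exp_smul]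
  have hβ3 : 0 < 1 / β := by positivity
  obtain ⟨g, hg⟩ : ∃ g : ℝ → ℂ, g = fun v : ℝ => Complex.exp (↑(-2 * Real.pi * v * ξ) * Complex.I) • fs β p q s₀ τ v := ⟨_, rfl⟩
  have hgc : Continuous g := by
    rw [hg]
    have h1 : Continuous fun v : ℝ => Complex.exp (↑(-2 * Real.pi * v * ξ) * Complex.I) := by fun_prop
    exact h1.smul (fs_cont hβ)
  rw [← hg]
  have h1 : ∫ v : ℝ, g v = ∫ v in (Real.exp (s₀ - 1 / β))..(Real.exp (s₀ + 1 / β)), g v := by
    symm
    apply intervalIntegral.integral_eq_integral_of_support_subset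
    intro v hv
    rw [Function.mem_support] at hv
    by_contra hcon
    refine hv ?_
    rw [hg]
    simp only
    rw [Set.mem_Ioc, not_and_or, not_lt, not_le] at hcon
    rcases hcon with h | h
    · rw [fs_small hβ h, smul_zero]
    · rw [fs_large hβ h.le, smul_zero]
  rw [h1]
  have h2 := intervalIntegral.integral_deriv_smul_comp (a := s₀ - 1 / β) (b := s₀ + 1 / β) (f := Real.exp)
    (f' := Real.exp) (g := g) (fun x _ => Real.hasDerivAt_exp x) Real.continuous_exp.continuousOn hgc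
  rw [← h2]
  refine intervalIntegral.integral_congr fun s _ => ?_
  simp only [Function.comp]
  rw [hg]
  simp only
  rw [fs_pos (Real.exp_pos s), Real.log_exp]
  have hes : (Real.exp s : ℂ) ≠ 0 := by
    rw [Complex.ofReal_ne_zero]
    exact (Real.exp_pos s).ne'
  have h3 : EP τ (2 * Real.pi * ξ) s = Complex.exp (↑(-2 * Real.pi * Real.exp s * ξ) * Complex.I) * er (-τ) s := by
    unfold EP er
    rw [← Complex.exp_add]
    congr 1
    push_cast
    ring
  rw [h3, Complex.real_smul, smul_eq_mul]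
  push_cast
  field_simp

theorem fourier_bound {β p q s₀ τ : ℝ} (hβ : 1 ≤ β) (hβ2 : β ≤ 20) (hτ : |τ| ≤ Real.exp (s₀ - 1)) {ξ : ℝ} (hξ : 1 ≤ |ξ|) :
    ‖∫ s in (s₀ - 1 / β)..(s₀ + 1 / β), (am β p q s₀ s : ℂ) * EP τ (2 * Real.pi * ξ) s‖ ≤
      2700 * (|p| + |q|) * Real.exp 2 * Real.exp (-(2 * s₀)) * (1 / ξ ^ 2) := by
  have hB : 0 < |ξ| * Real.exp (s₀ - 1) := mul_pos (by linarith) (Real.exp_pos _)
  have h0 : ∀ s, s₀ - 1 ≤ s → |2 * Real.pi * ξ * Real.exp s| = 2 * Real.pi * (|ξ| * Real.exp s) := by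
    intro s _
    rw [abs_mul, abs_mul, abs_mul, abs_of_pos (Real.exp_pos s), abs_of_pos Real.pi_pos, abs_of_pos (by norm_num : (0 : ℝ) < 2)]
    ring
  have h1 : ∀ s, s₀ - 1 ≤ s → 2 * Real.pi * (|ξ| * Real.exp s) - |ξ| * Real.exp s ≤ |τ + 2 * Real.pi * ξ * Real.exp s| := by
    intro s hs
    have h2 : |2 * Real.pi * ξ * Real.exp s| ≤ |τ + 2 * Real.pi * ξ * Real.exp s| + |τ| := by
      have e : 2 * Real.pi * ξ * Real.exp s = (τ + 2 * Real.pi * ξ * Real.exp s) - τ := by ring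
      calc |2 * Real.pi * ξ * Real.exp s| = |(τ + 2 * Real.pi * ξ * Real.exp s) - τ| := by rw [← e]
        _ ≤ _ := abs_sub _ _
    rw [h0 s hs] at h2
    have h3 : |τ| ≤ |ξ| * Real.exp s := by
      have h4 : Real.exp (s₀ - 1) ≤ Real.exp s := Real.exp_le_exp.2 hs
      have h5 : Real.exp s ≤ |ξ| * Real.exp s := le_mul_of_one_le_left (Real.exp_pos _).le hξ
      linarith
    linarith
  have hpi : 3 < Real.pi := Real.pi_gt_three
  have h2 := int_am (p := p) (q := q) (τ := τ) (κ := 2 * Real.pi * ξ) (s₀ := s₀) hβ hβ2 hB (fun s hs => by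
    refine le_trans ?_ (h1 s hs)
    have h4 : Real.exp (s₀ - 1) ≤ Real.exp s := Real.exp_le_exp.2 hs
    have h5 : |ξ| * Real.exp (s₀ - 1) ≤ |ξ| * Real.exp s := by gcongr
    have h6 : 0 < |ξ| * Real.exp s := mul_pos (by linarith) (Real.exp_pos _)
    nlinarith) (fun s hs => by
    rw [h0 s hs]
    have h3 := h1 s hs
    have h6 : 0 < |ξ| * Real.exp s := mul_pos (by linarith) (Real.exp_pos _)
    nlinarith)
  refine h2.trans (le_of_eq ?_)
  have e1 : (|ξ| * Real.exp (s₀ - 1)) ^ 2 = ξ ^ 2 * Real.exp (2 * s₀ - 2) := by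
    rw [mul_pow, sq_abs, ← Real.exp_nat_mul]
    congr 2
    push_cast
    ring
  have e2 : Real.exp 2 * Real.exp (-(2 * s₀)) = (Real.exp (2 * s₀ - 2))⁻¹ := by
    rw [← Real.exp_add, ← Real.exp_neg]
    congr 1
    ring
  rw [e1, mul_assoc (2700 * (|p| + |q|)), e2]
  have hξ0 : ξ ≠ 0 := by
    intro h
    rw [h, abs_zero] at hξ
    linarith
  have := (Real.exp_pos (2 * s₀ - 2)).ne'
  field_simp

open FourierTransform in
/-- job SMO -/
theorem smo : S_SMO := by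
  obtain ⟨Z, hZ⟩ : ∃ Z : ℝ, Z = (∑' n : ℤ, 1 / (n : ℝ) ^ 2 : ℝ) := ⟨_, rfl⟩
  have hZs : Summable fun n : ℤ => 1 / (n : ℝ) ^ 2 := Real.summable_one_div_int_pow.2 one_lt_two
  have hZ0 : 0 ≤ Z := by rw [hZ]; exact tsum_nonneg fun n => by positivity
  refine ⟨2700 * (1 + Real.exp 2 * Z), ?_, ?_⟩
  · have : 0 ≤ Real.exp 2 * Z := by positivity
    linarith
  intro β p q τ s₀ hβ hβ2 hτ0 hτ
  have hpq : 0 ≤ |p| + |q| := by positivity
  obtain ⟨G, hG⟩ : ∃ G : ℤ → ℝ, G = fun n : ℤ => (if n = 0 then 2700 * (|p| + |q|) / τ ^ 2 else 0) +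
    2700 * (|p| + |q|) * Real.exp 2 * Real.exp (-(2 * s₀)) * (1 / (n : ℝ) ^ 2) := ⟨_, rfl⟩
  have hGa : HasSum (fun n : ℤ => if n = 0 then 2700 * (|p| + |q|) / τ ^ 2 else 0) (2700 * (|p| + |q|) / τ ^ 2) :=
    hasSum_ite_eq 0 _
  have hGb : HasSum (fun n : ℤ => 2700 * (|p| + |q|) * Real.exp 2 * Real.exp (-(2 * s₀)) * (1 / (n : ℝ) ^ 2))
      (2700 * (|p| + |q|) * Real.exp 2 * Real.exp (-(2 * s₀)) * Z) := by
    rw [hZ]
    exact hZs.hasSum.mul_left _
  have hGs : HasSum G (2700 * (|p| + |q|) / τ ^ 2 + 2700 * (|p| + |q|) * Real.exp 2 * Real.exp (-(2 * s₀)) * Z) := by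
    rw [hG]
    exact hGa.add hGb
  have hFG : ∀ n : ℤ, ‖𝓕 (fs β p q s₀ τ) n‖ ≤ G n := by
    intro n
    rw [fs_fourier hβ, hG]
    simp only
    by_cases hn : n = 0
    · rw [if_pos hn, hn]
      have h1 := int_am (p := p) (q := q) (τ := τ) (κ := 2 * Real.pi * ((0 : ℤ) : ℝ)) (s₀ := s₀) (B := |τ|) hβ hβ2
        (abs_pos.2 hτ0) (fun s _ => by
          rw [Int.cast_zero, mul_zero, zero_mul, add_zero]) (fun s _ => by
          rw [Int.cast_zero, mul_zero, zero_mul, add_zero, abs_zero]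
          positivity)
      refine h1.trans ?_
      rw [sq_abs, Int.cast_zero]
      have : 2700 * (|p| + |q|) * Real.exp 2 * Real.exp (-(2 * s₀)) * (1 / (0 : ℝ) ^ 2) = 0 := by simp
      rw [this, add_zero]
    · rw [if_neg hn, zero_add]
      have hξ : 1 ≤ |(n : ℝ)| := by
        have := Int.one_le_abs hn
        exact_mod_cast this
      exact fourier_bound hβ hβ2 hτ hξ
  have hFs : Summable fun n : ℤ => 𝓕 (fs β p q s₀ τ) n := Summable.of_norm_bounded hGs.summable hFG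
  have hO : (fs β p q s₀ τ) =O[Filter.cocompact ℝ] fun x : ℝ => |x| ^ (-2 : ℝ) := by
    have h1 : (fs β p q s₀ τ) =ᶠ[Filter.cocompact ℝ] fun _ => 0 := by
      refine Filter.mem_cocompact.2 ⟨Set.Icc 0 (Real.exp (s₀ + 1 / β)), isCompact_Icc, ?_⟩
      intro x hx
      rw [Set.mem_compl_iff, Set.mem_Icc, not_and_or, not_le, not_le] at hx
      rcases hx with h | h
      · exact fs_neg h.le
      · exact fs_large hβ h.le
    exact (Asymptotics.isBigO_zero _ _).congr' h1.symm (Filter.EventuallyEq.refl _ _)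
  have hP := Real.tsum_eq_tsum_fourier_of_rpow_decay_of_summable (fs_cont (p := p) (q := q) (s₀ := s₀) (τ := τ) hβ)
    one_lt_two hO hFs 0
  have hS : ∑ n ∈ Icc 1 ⌊Real.exp (s₀ + 1)⌋₊,
      (((p + q * (Real.log n - s₀)) * w (β * (Real.log n - s₀)) / n : ℝ) : ℂ) * er (-τ) (Real.log n) =
      ∑' n : ℤ, fs β p q s₀ τ (0 + n) := by
    have h1 : ∑' n : ℤ, fs β p q s₀ τ (0 + n) = ∑ n ∈ (Icc 1 ⌊Real.exp (s₀ + 1)⌋₊).map Nat.castEmbedding, fs β p q s₀ τ (0 + (n : ℤ)) := by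
      refine tsum_eq_sum fun n hn => ?_
      rw [zero_add]
      by_cases h0 : n ≤ 0
      · exact fs_neg (by exact_mod_cast h0)
      · push Not at h0
        refine fs_large hβ ?_
        by_contra hcon
        push Not at hcon
        refine hn ?_
        rw [mem_map]
        refine ⟨n.toNat, ?_, by simp [Int.toNat_of_nonneg h0.le]⟩
        rw [mem_Icc]
        have e : ((n.toNat : ℕ) : ℝ) = (n : ℝ) := by
          have : ((n.toNat : ℕ) : ℤ) = n := Int.toNat_of_nonneg h0.le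
          exact_mod_cast this
        refine ⟨by omega, Nat.le_floor ?_⟩
        rw [e]
        refine hcon.le.trans (Real.exp_le_exp.2 ?_)
        have : 1 / β ≤ 1 := by rw [div_le_one (by linarith)]; exact hβ
        linarith
    rw [h1, sum_map]
    refine sum_congr rfl fun n hn => ?_
    have hn1 : 1 ≤ n := (mem_Icc.1 hn).1
    have hn0 : (0 : ℝ) < n := by exact_mod_cast hn1
    have e : (0 + ((Nat.castEmbedding n : ℤ) : ℝ)) = (n : ℝ) := by simp
    rw [e, fs_pos hn0]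
    rfl
  rw [hS, hP]
  have hF1 : ∀ n : ℤ, 𝓕 (fs β p q s₀ τ) n * fourier n ((0 : ℝ) : UnitAddCircle) = 𝓕 (fs β p q s₀ τ) n := by
    intro n
    have : fourier n ((0 : ℝ) : UnitAddCircle) = 1 := by simp
    rw [this, mul_one]
  simp only [hF1]
  refine (tsum_of_norm_bounded hGs hFG).trans ?_
  have e1 : 0 ≤ Real.exp (-(2 * s₀)) := (Real.exp_pos _).le
  have e2 : 2700 * (1 + Real.exp 2 * Z) * (|p| + |q|) * (1 / τ ^ 2 + Real.exp (-(2 * s₀))) =
      2700 * (|p| + |q|) / τ ^ 2 + 2700 * (|p| + |q|) * Real.exp 2 * Real.exp (-(2 * s₀)) * Z +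
      (2700 * (|p| + |q|) * Real.exp (-(2 * s₀)) + 2700 * (|p| + |q|) * (Real.exp 2 * Z) * (1 / τ ^ 2)) := by ring
  rw [e2]
  have e3 : 0 ≤ 2700 * (|p| + |q|) * Real.exp (-(2 * s₀)) + 2700 * (|p| + |q|) * (Real.exp 2 * Z) * (1 / τ ^ 2) := by
    positivity
  linarith

end Pool.Agent.Q14.KS
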